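import Pool.Agent.Lib.MP_59868e_an.Fail

/-!
Answer to the question of Laczkovich: the Cancellation Law fails in every compact Hausdorff
abelian group that is not a torsion group (for instance in the circle group), for a suitable
translation-invariant algebra consisting of countable and co-countable sets, already for `n = 2`.
-/

open Set Function
open scoped Pointwise
open Pool.Agent.Lib.MP_59868e_an

namespace Pool.Agent.Results.MP_59868e_an.CancellationFails

/-- Let `X` be a compact Hausdorff abelian topological group which has an element of infinite
order. Then there are a translation-invariant algebra `𝒜` of subsets of `X`, every member of which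
is countable or has countable complement, and sets `A, B ∈ 𝒜` with `2[A] = 2[B]` but not `A ∼ B`
(all translations of `X` being allowed, pieces in `𝒜`). -/
theorem result {X : Type*} [AddCommGroup X] [TopologicalSpace X] [IsTopologicalAddGroup X]
    [CompactSpace X] [T2Space X] (hX : ∃ w : X, ∀ n : ℕ, 0 < n → n • w ≠ 0) :
    ∃ 𝒜 : BooleanSubalgebra (Set X), TranslationInvariant 𝒜 ∧
      (∀ A ∈ 𝒜, A.Countable ∨ Aᶜ.Countable) ∧
      ∃ A ∈ 𝒜, ∃ B ∈ 𝒜, MultipleEquidecomposable 𝒜 2 A B ∧ ¬ Equidecomposable 𝒜 A B := by
  obtain ⟨u, w, hw, hu⟩ := exists_independent hX
  exact cancellation_fails_of_independent u w hw hu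

end Pool.Agent.Results.MP_59868e_an.CancellationFails
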